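import Pool.Agent.P8H9.TP.Fin

/-!
# MP_92892c_nt, Q1 on average: leading terms and the product form for curves with two given points

For `v = (a, c, d) ∈ ℤ³` let `E_v : y² = x³ + a x² + b x + c²`, `b = d² - c² - 1 - a`.  These are all the
curves of this shape through the rational points `(0, c)`, `(1, d)`.  Birch and Swinnerton-Dyer stated
their conjecture first for the products `∏_{p ≤ x} #E(𝔽_p)/p`.  By Goldfeld (1982), for a single curve
`∏_{p ≤ x} #E(𝔽_p)/p ~ C (log x)^r` would imply that `L(E, s)` has order `r` and a leading term equal to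
`√2 e^{r γ} / C` (up to the factors at the bad primes).  The theorem gives the leading terms of the means
of all the integral powers of `L(E_v, s)` and of the partial products over this family of curves, and the
factors between the two: for the first powers the factor `√2` disappears.
-/

set_option autoImplicit false

open Filter Topology Pool.Agent.P8H9.AV Pool.Agent.P8H9.TP

namespace Pool.Agent.Results.MP_92892c_nt.ProductFormInTheMean

/-- **Leading terms and the product form in the mean.**  Let `k ∈ ℤ`, `m = tri k = k (k - 1) / 2`,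
`r = ord k = 2 k - m`.  There is a function `N` with the following properties.

* `N` is holomorphic for `Re s > 5/6` and real and positive for real `s > 5/6`.
* For `Re s > 3/2` the mean of `L(E_v, s)^k` over the `v ∈ ℤ³` in a box `|v_j| ≤ H_j` tends to
  `M(s) = ζ(s)^{-2k} ζ(2s - 1)^m N(s)` as all `H_j` tend to infinity.
* The function `M`, meromorphic for `Re s > 5/6`, has order exactly `r` at `s = 1`: the leading
  coefficient `L = lim (s - 1)^{-r} M(s)` is positive.
* For every `x` the mean of `(∏_{p ≤ x} p / #E_v(𝔽_p))^k` tends to a number `P(x)`, and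
  `(e^γ log x)^r P(x)` tends to `2^m L` as `x` tends to infinity. -/
theorem result (k : ℤ) : ∃ N : ℂ → ℂ,
    DifferentiableOn ℂ N {s : ℂ | 5 / 6 < s.re} ∧
    (∀ σ : ℝ, 5 / 6 < σ → ∃ r : ℝ, 0 < r ∧ N (σ : ℂ) = r) ∧
    (∀ s : ℂ, 3 / 2 < s.re →
      Tendsto (fun H : Fin 3 → ℕ => mean H fun v => LE v s ^ k) atTop
        (𝓝 (riemannZeta s ^ (-(2 * k)) * riemannZeta (2 * s - 1) ^ tri k * N s))) ∧
    ∃ (L : ℝ) (P : ℕ → ℝ), 0 < L ∧
      Tendsto (fun s : ℂ => (s - 1) ^ (-ord k) *
        (riemannZeta s ^ (-(2 * k)) * riemannZeta (2 * s - 1) ^ tri k * N s)) (𝓝[≠] 1)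
        (𝓝 (L : ℂ)) ∧
      (∀ x : ℕ, Tendsto (fun H : Fin 3 → ℕ => mean H fun v => ((prodForm v x : ℝ) : ℂ) ^ k) atTop
        (𝓝 ((P x : ℝ) : ℂ))) ∧
      Tendsto (fun x : ℕ => P x *
        (Real.exp Real.eulerMascheroniConstant * Real.log x) ^ ord k) atTop
        (𝓝 ((2 : ℝ) ^ tri k * L)) :=
  main k

end Pool.Agent.Results.MP_92892c_nt.ProductFormInTheMean
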