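import Pool.Agent.Y703.CT.T1d
import Pool.Agent.Y696.CTP.Cnt
import Pool.Agent.V11291.FK.Cub3

/-!
# The `3`-part of the leading-term formula for the curves `x³ + y³ = N` with a fixed number of prime
# factors from an arbitrary set of primes

`E_N : y² + N y = x³` over `ℚ` is `3`-isogenous to `x³ + y³ = N`.  The numbers `N` are squarefree, prime
to `3`, not `±1` modulo `9`, and have exactly one prime factor `2` modulo `3`.  We fix the number `k` of
the prime factors of `N` which are `1` modulo `3`, and an arbitrary set `S` of primes that contains the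
prime factors.

For every `N` the equation is globally minimal, `L(E_N, s)` is entire, the number
`u = L(E_N, 1) |E_N(ℚ)_tors|² / (Ω ∏ c_p)` is integral at `3`, and it is a unit at `3` if and only if
`E_N(ℚ)` is finite and `Ш(E_N/ℚ)[3^∞] = 0` (the leading-term formula modulo `3`).

Theorem.  Suppose that there are `k` residue classes modulo `9` which are `1` modulo `3` and one residue
class modulo `9` which is `2` modulo `3`, with product not `8` modulo `9`, each of which contains at
least a positive proportion of the primes up to `Y` in `S`, for all large `Y`.  Then the number of the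
`N ≤ X` in the family has the order of magnitude `X (log log X)^k / log X`, and the proportion of those
for which the `3`-part of the formula holds with both sides units at `3` tends to the rational number
`∏_{i ≤ k} (1 - 3^{-i})`, that is `1`, `2/3`, `16/27`, `416/729`, … for `k = 0, 1, 2, 3, …`: the
proportion of the invertible matrices among the `k` times `k` matrices over the field with three
elements.  The condition holds if `S` is a residue class modulo a number prime to `3`.
-/

set_option autoImplicit false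

open Finset Filter Topology

namespace Pool.Agent.Results.MP_92892c_nt.ThreePartFixedNumber

open Pool.Agent.W97.MT (IsGloballyMinimal ap)
open Pool.Agent.Y700 (Omega tam)
open Pool.Agent.TH841.SH.D (Sha)

/-- The equation `E_D : y² + D y = x³` with integral coefficients. -/
def curve (D : ℕ) : WeierstrassCurve ℤ := ⟨0, 0, (D : ℤ), 0, 0⟩

/-- The curve `E_D` over `ℚ`. -/
def curveQ (D : ℕ) : WeierstrassCurve ℚ := ⟨0, 0, (D : ℚ), 0, 0⟩

/-- `D` is squarefree, not divisible by `3`, not `±1` modulo `9`, and divisible by exactly one prime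
that is `2` modulo `3`. -/
def InClass (D : ℕ) : Prop :=
  Squarefree D ∧ ¬ 3 ∣ D ∧ D % 9 ≠ 1 ∧ D % 9 ≠ 8 ∧
    ∃ q : ℕ, q.Prime ∧ q % 3 = 2 ∧ q ∣ D ∧ ∀ p : ℕ, p.Prime → p ∣ D → p ≠ q → p % 3 = 1

/-- `L` is the `L`-function of `E_D`: it is entire and equal to the Euler product for `Re s > 3/2`. -/
def IsLFunction (D : ℕ) (L : ℂ → ℂ) : Prop :=
  Differentiable ℂ L ∧ ∀ s : ℂ, 3 / 2 < s.re →
    HasProd (fun p : Nat.Primes => (1 - (ap (curve D) p : ℂ) * ((p : ℕ) : ℂ) ^ (-s) +
      (if ((p : ℕ) : ℤ) ∣ (curve D).Δ then 0 else ((p : ℕ) : ℂ) ^ (1 - 2 * s)))⁻¹) (L s)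

/-- The product of the Tamagawa numbers `[E_D(ℚ_p) : E_D⁰(ℚ_p)]` for the primes `p` that divide the
discriminant. -/
noncomputable def tamagawa (D : ℕ) : ℕ :=
  ∏ p ∈ (curve D).Δ.natAbs.primeFactors,
    if h : p.Prime then (haveI := Fact.mk h; tam (curve D) p) else 1

/-- The order of the torsion subgroup of `E_D(ℚ)`. -/
noncomputable def torsion (D : ℕ) : ℕ := Nat.card (AddCommGroup.torsion (curveQ D).toAffine.Point)

/-- `u` is integral at `3`: for some `n` prime to `3` the number `n u` is an algebraic integer. -/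
def IntegralAtThree (u : ℂ) : Prop := ∃ n : ℤ, IsCoprime 3 n ∧ IsIntegral ℤ ((n : ℂ) * u)

/-- `u` is a unit at `3`: it is not zero, and for some `n` prime to `3` the numbers `n u` and `n / u`
are algebraic integers. -/
def UnitAtThree (u : ℂ) : Prop :=
  u ≠ 0 ∧ ∃ n : ℤ, IsCoprime 3 n ∧ IsIntegral ℤ ((n : ℂ) * u) ∧ IsIntegral ℤ ((n : ℂ) * u⁻¹)

/-- `E_D(ℚ)` is finite and the `3`-primary part of `Ш(E_D/ℚ)` is zero. -/
def TrivialThree (D : ℕ) : Prop := Finite (curveQ D).toAffine.Point ∧
  ∀ (n : ℕ) (x : Sha (curveQ D)), 3 ^ n • x = 0 → x = 0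

/-- In every factorization of `D` in coprime factors `d₀ d₁ d₂` for which `d₁ d₂²`, `d₂ d₀²`,
`d₀ d₁²` are cubes modulo the primes dividing `d₀`, `d₁`, `d₂` respectively, two factors are `1`. -/
def HasNoSplitting (D : ℕ) : Prop :=
  ∀ d : ZMod 3 → ℕ, ∏ c, d c = D → (∀ c c', c ≠ c' → Nat.Coprime (d c) (d c')) →
    (∀ (c : ZMod 3) (p : ℕ), p.Prime → p ∣ d c →
      ∃ x : ℤ, (p : ℤ) ∣ (d (c + 1) : ℤ) * (d (c + 2) : ℤ) ^ 2 - x ^ 3) →
    ∃ c, ∀ c', c' ≠ c → d c' = 1

/-- `u` is the analytic constant of `E_D` divided by the part of the algebraic constant that does not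
come from `Ш`: `L(E_D, 1) = u Ω ∏ c_p / |E_D(ℚ)_tors|²`. -/
def IsAnalyticSha (D : ℕ) (u : ℂ) : Prop := ∃ L : ℂ → ℂ, IsLFunction D L ∧
  L 1 = u * (((Omega (curve D) : ℝ) : ℂ) * (tamagawa D : ℂ) / (torsion D : ℂ) ^ 2)

/-- The leading-term formula modulo `3` for `E_D`: the equation is globally minimal, the number `u`
exists, it is integral at `3`, and it is a unit at `3` if and only if `E_D(ℚ)` is finite and
`Ш(E_D/ℚ)[3^∞] = 0`, if and only if `D` has no splitting. -/
def FormulaModThree (D : ℕ) : Prop :=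
  IsGloballyMinimal (curve D) ∧ ∃ u : ℂ, IsAnalyticSha D u ∧ IntegralAtThree u ∧
    (UnitAtThree u ↔ TrivialThree D) ∧ (TrivialThree D ↔ HasNoSplitting D)

/-- The `3`-part of the leading-term formula for `E_D` with both sides units at `3`: `u` is a unit
at `3`, `E_D(ℚ)` is finite and `Ш(E_D/ℚ)[3^∞] = 0`. -/
def ThreePart (D : ℕ) : Prop := ∃ u : ℂ, IsAnalyticSha D u ∧ UnitAtThree u ∧ TrivialThree D

/-- the number of the prime factors of `N` which are `1` modulo `3` -/
def number (N : ℕ) : ℕ := (N.primeFactors.filter fun p => p % 3 = 1).card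

/-- the `N` of the class with all the prime factors in `S`, exactly `k` of them `1` modulo `3` -/
def Family (S : Set ℕ) (k N : ℕ) : Prop :=
  InClass N ∧ (∀ p : ℕ, p.Prime → p ∣ N → p ∈ S) ∧ number N = k

/-- at least a positive proportion of the primes up to `Y` is in `S` and `r` modulo `9`, for all large
`Y` -/
def Dense (S : Set ℕ) (r : ℕ) : Prop := ∃ (δ : ℝ) (Y₀ : ℕ), 0 < δ ∧ ∀ Y : ℕ, Y₀ ≤ Y →
  δ * (Y / Real.log Y) ≤ (Nat.card {p : ℕ // p ≤ Y ∧ p ∈ S ∧ p.Prime ∧ p % 9 = r} : ℝ)

/-- the condition on `S`: there are residue classes `r i` (for `i < k`) and `s` modulo `9` with many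
primes in `S`, `r i ≡ 1` and `s ≡ 2` modulo `3`, whose product is not `8` modulo `9` -/
def Rich (S : Set ℕ) (k : ℕ) : Prop :=
  ∃ (r : Fin k → ℕ) (s : ℕ), (∀ i, r i % 3 = 1 ∧ Dense S (r i)) ∧ s % 3 = 2 ∧ Dense S s ∧
    (∏ i, r i) * s % 9 ≠ 8

/-- the number of the `N` with `1 ≤ N ≤ X` and `Q N` -/
noncomputable def count (Q : ℕ → Prop) (X : ℕ) : ℕ := Nat.card {N : ℕ // 1 ≤ N ∧ N ≤ X ∧ Q N}

/-- the number of the `N ≤ X` in the family is between two positive constants times
`X (log log X)^k / log X`, and the proportion of those for which the `3`-part of the formula holds with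
both sides units at `3` tends to `∏_{i < k} (1 - 3^{-(i + 1)})` -/
def Law (S : Set ℕ) (k : ℕ) : Prop :=
  (∃ (c C : ℝ) (X₀ : ℕ), 0 < c ∧ 0 < C ∧ ∀ X : ℕ, X₀ ≤ X →
    c * (X * Real.log (Real.log X) ^ k / Real.log X) ≤ (count (Family S k) X : ℝ) ∧
    (count (Family S k) X : ℝ) ≤ C * (X * Real.log (Real.log X) ^ k / Real.log X)) ∧
  Tendsto (fun X : ℕ => (count (fun N => Family S k N ∧ ThreePart N) X : ℝ) /
    (count (Family S k) X : ℝ)) atTop (𝓝 (∏ i ∈ range k, (1 - (1 / 3 : ℝ) ^ (i + 1))))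

section proof

open Pool.Agent.Y703.CT (Cls NoSplit WD Triv3 ThreeInt ThreeUnit)

lemma curve_eq (N : ℕ) : Pool.Agent.Y703.CT.EQ (WD N) = curveQ N := by
  unfold Pool.Agent.Y703.CT.EQ WD curveQ WeierstrassCurve.map
  simp

lemma triv_eq (N : ℕ) : TrivialThree N ↔ Triv3 N := by
  unfold TrivialThree Triv3
  rw [curve_eq]

lemma tors_eq (N : ℕ) : torsion N = Pool.Agent.Y703.CT.tors N := by
  unfold torsion Pool.Agent.Y703.CT.tors
  rw [curve_eq]

lemma tam_eq (N : ℕ) : tamagawa N = Pool.Agent.Y703.CT.tamProd (WD N) := by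
  unfold tamagawa Pool.Agent.Y703.CT.tamProd
  refine Finset.prod_congr rfl fun p _ => ?_
  congr!

lemma one {N : ℕ} (hN : Cls N) : FormulaModThree N := by
  obtain ⟨h1, f, h2, u, h3, h4, h5, h6⟩ := Pool.Agent.Y703.CT.fin_all hN
  refine ⟨h1, u, ⟨f, h2, ?_⟩, h4, ?_, ?_⟩
  · rw [tors_eq, tam_eq]
    exact h3
  · exact h5.trans (triv_eq N).symm
  · exact (triv_eq N).trans h6

lemma three_iff {N : ℕ} (hN : Cls N) : ThreePart N ↔ NoSplit N := by
  obtain ⟨h1, u, h2, h3, h4, h5⟩ := one hN
  constructor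
  · rintro ⟨v, -, -, h6⟩
    exact h5.1 h6
  · intro h6
    exact ⟨u, h2, h4.2 (h5.2 h6), h5.2 h6⟩

lemma class_iff (N : ℕ) : InClass N ↔ Squarefree N ∧ Cls N :=
  (Pool.Agent.Y696.CTP.cls_sq N).symm

open Pool.Agent.V11291.FK.Cb (Fam k1) in
lemma fam_iff (S : Set ℕ) (k N : ℕ) : Family S k N ↔ Fam (fun p => p ∈ S) k N := by
  unfold Family Fam
  constructor
  · rintro ⟨h1, h2, h3⟩
    have h4 := (class_iff N).1 h1
    exact ⟨h4.1, h4.2, fun p hp => h2 p (Nat.prime_of_mem_primeFactors hp)
      (Nat.dvd_of_mem_primeFactors hp), h3⟩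
  · rintro ⟨h1, h2, h3, h4⟩
    exact ⟨(class_iff N).2 ⟨h1, h2⟩, fun p hp hd => h3 p
      (Nat.mem_primeFactors.2 ⟨hp, hd, h1.ne_zero⟩), h4⟩

open Pool.Agent.V11291.FK (Dn) in
lemma dense_iff (S : Set ℕ) (r : ℕ) :
    Dense S r ↔ Dn fun p => p ∈ S ∧ p.Prime ∧ p % 9 = r := by
  classical
  unfold Dense Dn
  have h : ∀ Y : ℕ, Nat.card {p : ℕ // p ≤ Y ∧ p ∈ S ∧ p.Prime ∧ p % 9 = r} =
      ((range (Y + 1)).filter fun p => p ∈ S ∧ p.Prime ∧ p % 9 = r).card := by
    intro Y
    rw [← Fintype.card_coe, ← Nat.card_eq_fintype_card]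
    refine Nat.card_congr (Equiv.subtypeEquivRight fun p => ?_)
    rw [Finset.mem_filter, Finset.mem_range, Nat.lt_succ_iff]
  simp only [h]
  refine exists_congr fun δ => exists_congr fun Y₀ => and_congr_right fun _ =>
    forall_congr' fun Y => imp_congr_right fun _ => ?_
  rw [iff_iff_eq]
  congr!

lemma rich_iff (S : Set ℕ) (k : ℕ) : Rich S k ↔ Pool.Agent.V11291.FK.Cb.Rich (fun p => p ∈ S) k := by
  unfold Rich Pool.Agent.V11291.FK.Cb.Rich
  simp only [dense_iff]

lemma count_eq (Q : ℕ → Prop) [DecidablePred Q] (X : ℕ) : count Q X = ((Icc 1 X).filter Q).card := by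
  unfold count
  rw [← Fintype.card_coe, ← Nat.card_eq_fintype_card]
  refine Nat.card_congr (Equiv.subtypeEquivRight fun p => ?_)
  rw [Finset.mem_filter, Finset.mem_Icc, and_assoc]

end proof

/-- **Main theorem.**
(1) For every `N` of the class the leading-term formula modulo `3` holds for `E_N`.
(2) Let `S` be a set of primes which satisfies the condition `Rich`.  Then the number of the `N` up to
`X` of the class with exactly `k` prime factors `1` modulo `3` and with all the prime factors in `S` is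
between two positive constants times `X (log log X)^k / log X`, and the proportion of those for which
the `3`-part of the formula holds with both sides units at `3` tends to `∏_{i < k} (1 - 3^{-(i + 1)})`.
(3) The condition holds if `S` is the set of the numbers in a residue class `c` modulo `q`, with `q`
prime to `3` and `c` prime to `q`. -/
theorem result :
    (∀ N : ℕ, InClass N → FormulaModThree N) ∧
    (∀ (S : Set ℕ) (k : ℕ), Rich S k → Law S k) ∧
    ∀ q c : ℕ, Nat.Coprime q 3 → Nat.Coprime c q → ∀ k : ℕ, Rich {p | p % q = c % q} k := by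
  classical
  refine ⟨fun N hN => one ((class_iff N).1 hN).2, fun S k hS => ?_, fun q c hq hc k =>
    (rich_iff _ k).2 (Pool.Agent.V11291.FK.Cb.rich_class hq hc k)⟩
  have hS' := (rich_iff S k).1 hS
  have e1 : ∀ X : ℕ, count (Family S k) X =
      ((Icc 1 X).filter fun N => Pool.Agent.V11291.FK.Cb.Fam (fun p => p ∈ S) k N).card := by
    intro X
    rw [count_eq]
    congr 1
    ext N
    rw [mem_filter, mem_filter, fam_iff]
  have e2 : ∀ X : ℕ, count (fun N => Family S k N ∧ ThreePart N) X =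
      ((Icc 1 X).filter fun N => Pool.Agent.V11291.FK.Cb.Fam (fun p => p ∈ S) k N ∧
        Pool.Agent.Y703.CT.NoSplit N).card := by
    intro X
    rw [count_eq]
    congr 1
    ext N
    rw [mem_filter, mem_filter]
    refine and_congr_right fun _ => ?_
    rw [fam_iff]
    exact and_congr_right fun h => three_iff h.2.1
  refine ⟨?_, ?_⟩
  · obtain ⟨c, C, X₀, hc, hC, h⟩ := Pool.Agent.V11291.FK.Cb.N_size hS'
    refine ⟨c, C, X₀, hc, hC, fun X hX => ?_⟩
    have h3 := h X hX
    rw [e1]
    refine ⟨h3.1.trans (le_of_eq ?_), (le_of_eq ?_).trans h3.2⟩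
    · congr 2
    · congr 2
  · refine (Pool.Agent.V11291.FK.Cb.N_law hS').congr fun X => ?_
    rw [e1, e2]

end Pool.Agent.Results.MP_92892c_nt.ThreePartFixedNumber
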