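import Pool.Agent.R432.JG.Law
import Pool.Agent.R432.JG.Low
import Pool.Agent.R432.JG.Common
import Pool.Agent.Y703.CT.T1d

/-!
# The `3`-part of the leading-term formula for all the cubic twists of a system at the same time

`E_D : y² + D y = x³` over `ℚ` (`3`-isogenous to `x³ + y³ = D`).  `M` is a finite set of primes `≡ 1`
modulo `9`.  The number `D` runs through the squarefree numbers prime to `3` and to `M`, not `±1`
modulo `9`, that are divisible by exactly one prime `2` modulo `3`.  Every `D` has the system of the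
`3 ^ #M` cubic twists `E_{D_t}`, `D_t = D ∏_{l ∈ M} l ^ {t_l}` with exponents `t_l ∈ {0, 1, 2}`.

For every `t` the equation is globally minimal, `L(E_{D_t}, s)` is entire, the analytic constant
`u_t = L(E_{D_t}, 1) |E_{D_t}(ℚ)_tors|² / (Ω ∏ c_p)` is integral at `3`, and it is a unit at `3` if and
only if `E_{D_t}(ℚ)` is finite and `Ш(E_{D_t}/ℚ)[3^∞] = 0` (the leading-term formula modulo `3`), if and
only if `D_t` has no splitting (cubic residues).

The new result is the exact joint law.  Let `V` be any set of exponents `t`.  The proportion of the `D`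
for which `V` is exactly the set of the `t` with `u_t` a unit at `3` tends to
`c ^ #V (1 - c) ^ (3 ^ #M - #V)`, `c = ∏_{i ≥ 1} (1 - 3^{-i}) = 0.5601...`: the `3`-parts of the formula
for the `3 ^ #M` twists behave like independent random events.  For the proportion `c ^ (3 ^ #M)` of
the `D` the `3`-part of the formula holds (with both sides units at `3`) for all the twists of the system.
-/

set_option autoImplicit false

open scoped Classical

namespace Pool.Agent.Results.MP_92892c_nt.ThreePartTwistSystem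

open Pool.Agent.W97.MT (IsGloballyMinimal ap)
open Pool.Agent.Y700 (Omega tam)
open Pool.Agent.TH841.SH.D (Sha)

/-- The equation `E_D : y² + D y = x³` with integral coefficients. -/
def curve (D : ℕ) : WeierstrassCurve ℤ := ⟨0, 0, (D : ℤ), 0, 0⟩

/-- The curve `E_D` over `ℚ`. -/
def curveQ (D : ℕ) : WeierstrassCurve ℚ := ⟨0, 0, (D : ℚ), 0, 0⟩

/-- `D` is squarefree, not divisible by `3`, not `±1` modulo `9`, not divisible by the elements of `M`,
and divisible by exactly one prime that is `2` modulo `3`. -/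
def InClass (M : Finset ℕ) (D : ℕ) : Prop :=
  Squarefree D ∧ ¬ 3 ∣ D ∧ D % 9 ≠ 1 ∧ D % 9 ≠ 8 ∧ (∀ l ∈ M, ¬ l ∣ D) ∧
    ∃ q : ℕ, q.Prime ∧ q % 3 = 2 ∧ q ∣ D ∧ ∀ p : ℕ, p.Prime → p ∣ D → p ≠ q → p % 3 = 1

/-- The number `D_t = D ∏_{l ∈ M} l ^ (t l)` with exponents `0`, `1`, `2`. -/
def twist (M : Finset ℕ) (D : ℕ) (t : {l : ℕ // l ∈ M} → ZMod 3) : ℕ :=
  D * ∏ l : {l : ℕ // l ∈ M}, l.1 ^ (t l).val

/-- `L` is the `L`-function of `E_D`: it is entire and equal to the Euler product for `Re s > 3/2`. -/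
def IsLFunction (D : ℕ) (L : ℂ → ℂ) : Prop :=
  Differentiable ℂ L ∧ ∀ s : ℂ, 3 / 2 < s.re →
    HasProd (fun p : Nat.Primes => (1 - (ap (curve D) p : ℂ) * ((p : ℕ) : ℂ) ^ (-s) +
      (if ((p : ℕ) : ℤ) ∣ (curve D).Δ then 0 else ((p : ℕ) : ℂ) ^ (1 - 2 * s)))⁻¹) (L s)

/-- The product of the Tamagawa numbers `[E_D(ℚ_p) : E_D⁰(ℚ_p)]` for the primes `p` that divide the
discriminant. -/
noncomputable def tamagawa (D : ℕ) : ℕ :=
  ∏ p ∈ (curve D).Δ.natAbs.primeFactors,
    if h : p.Prime then (haveI := Fact.mk h; tam (curve D) p) else 1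

/-- The order of the torsion subgroup of `E_D(ℚ)`. -/
noncomputable def torsion (D : ℕ) : ℕ := Nat.card (AddCommGroup.torsion (curveQ D).toAffine.Point)

/-- `u` is integral at `3`: for some `n` prime to `3` the number `n u` is an algebraic integer. -/
def IntegralAtThree (u : ℂ) : Prop := ∃ n : ℤ, IsCoprime 3 n ∧ IsIntegral ℤ ((n : ℂ) * u)

/-- `u` is a unit at `3`: it is not zero, and for some `n` prime to `3` the numbers `n u` and `n / u`
are algebraic integers. -/
def UnitAtThree (u : ℂ) : Prop :=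
  u ≠ 0 ∧ ∃ n : ℤ, IsCoprime 3 n ∧ IsIntegral ℤ ((n : ℂ) * u) ∧ IsIntegral ℤ ((n : ℂ) * u⁻¹)

/-- `E_D(ℚ)` is finite and the `3`-primary part of `Ш(E_D/ℚ)` is zero. -/
def TrivialThree (D : ℕ) : Prop := Finite (curveQ D).toAffine.Point ∧
  ∀ (n : ℕ) (x : Sha (curveQ D)), 3 ^ n • x = 0 → x = 0

/-- In every factorization of `D` in coprime factors `d₀ d₁ d₂` for which `d₁ d₂²`, `d₂ d₀²`,
`d₀ d₁²` are cubes modulo the primes dividing `d₀`, `d₁`, `d₂` respectively, two factors are `1`. -/
def HasNoSplitting (D : ℕ) : Prop :=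
  ∀ d : ZMod 3 → ℕ, ∏ c, d c = D → (∀ c c', c ≠ c' → Nat.Coprime (d c) (d c')) →
    (∀ (c : ZMod 3) (p : ℕ), p.Prime → p ∣ d c →
      ∃ x : ℤ, (p : ℤ) ∣ (d (c + 1) : ℤ) * (d (c + 2) : ℤ) ^ 2 - x ^ 3) →
    ∃ c, ∀ c', c' ≠ c → d c' = 1

/-- `u` is the analytic constant of `E_D` divided by the part of the algebraic constant that does not
come from `Ш`: `L(E_D, 1) = u Ω ∏ c_p / |E_D(ℚ)_tors|²`. -/
def IsAnalyticSha (D : ℕ) (u : ℂ) : Prop := ∃ L : ℂ → ℂ, IsLFunction D L ∧
  L 1 = u * (((Omega (curve D) : ℝ) : ℂ) * (tamagawa D : ℂ) / (torsion D : ℂ) ^ 2)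

/-- The leading-term formula modulo `3` for `E_D`: the equation is globally minimal, the number `u`
exists, it is integral at `3`, and it is a unit at `3` if and only if `E_D(ℚ)` is finite and
`Ш(E_D/ℚ)[3^∞] = 0`, if and only if `D` has no splitting. -/
def FormulaModThree (D : ℕ) : Prop :=
  IsGloballyMinimal (curve D) ∧ ∃ u : ℂ, IsAnalyticSha D u ∧ IntegralAtThree u ∧
    (UnitAtThree u ↔ TrivialThree D) ∧ (TrivialThree D ↔ HasNoSplitting D)

/-- The `3`-part of the leading-term formula for `E_D` with both sides units at `3`: `u` is a unit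
at `3`, `E_D(ℚ)` is finite and `Ш(E_D/ℚ)[3^∞] = 0`. -/
def ThreePart (D : ℕ) : Prop := ∃ u : ℂ, IsAnalyticSha D u ∧ UnitAtThree u ∧ TrivialThree D

/-- The constant `c = ∏_{i ≥ 1} (1 - 3^{-i})`. -/
noncomputable def c : ℝ := ∏' i : ℕ, (1 - (1 / 3 : ℝ) ^ (i + 1))

/-- The number of the `D ≤ X` in the class is at least `c' X / √(log X)`. -/
def ClassIsLarge (M : Finset ℕ) : Prop :=
  ∃ c' : ℝ, 0 < c' ∧ ∃ X₀ : ℕ, ∀ X : ℕ, X₀ ≤ X →
    c' * X / Real.sqrt (Real.log X) ≤ (((Finset.Icc 1 X).filter fun D => InClass M D).card : ℝ)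

/-- For every set `V` of exponents: the proportion of the `D` in the class such that `V` is the set of
all `t` for which the `3`-part of the formula holds for `E_{D_t}` with both sides units at `3` tends
to `c ^ #V (1 - c) ^ (3 ^ #M - #V)`. -/
def JointLaw (M : Finset ℕ) : Prop :=
  ∀ V : Finset ({l : ℕ // l ∈ M} → ZMod 3), Filter.Tendsto (fun X : ℕ =>
    (((Finset.Icc 1 X).filter fun D => InClass M D ∧
        ∀ t, ThreePart (twist M D t) ↔ t ∈ V).card : ℝ) /
      (((Finset.Icc 1 X).filter fun D => InClass M D).card : ℝ)) Filter.atTop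
    (nhds (c ^ V.card * (1 - c) ^ (3 ^ M.card - V.card)))

section proof

open Pool.Agent.Y703.CT (Cls NoSplit WD Triv3 ThreeInt ThreeUnit)
open Pool.Agent.R432.JG (Cl cl_iff twN)

lemma curve_eq (N : ℕ) : Pool.Agent.Y703.CT.EQ (WD N) = curveQ N := by
  unfold Pool.Agent.Y703.CT.EQ WD curveQ WeierstrassCurve.map
  simp

lemma triv_eq (N : ℕ) : TrivialThree N ↔ Triv3 N := by
  unfold TrivialThree Triv3
  rw [curve_eq]

lemma tors_eq (N : ℕ) : torsion N = Pool.Agent.Y703.CT.tors N := by
  unfold torsion Pool.Agent.Y703.CT.tors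
  rw [curve_eq]

lemma one {N : ℕ} (hN : Cls N) : FormulaModThree N := by
  obtain ⟨h1, f, h2, u, h3, h4, h5, h6⟩ := Pool.Agent.Y703.CT.fin_all hN
  refine ⟨h1, u, ⟨f, h2, ?_⟩, h4, ?_, ?_⟩
  · rw [tors_eq]
    exact h3
  · exact h5.trans (triv_eq N).symm
  · exact (triv_eq N).trans h6

lemma three_iff {N : ℕ} (hN : Cls N) : ThreePart N ↔ NoSplit N := by
  obtain ⟨h1, u, h2, h3, h4, h5⟩ := one hN
  constructor
  · rintro ⟨v, -, -, h6⟩
    exact h5.1 h6
  · intro h6
    exact ⟨u, h2, h4.2 (h5.2 h6), h5.2 h6⟩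

lemma mem_cls {M : Finset ℕ} (hM : ∀ l ∈ M, l.Prime ∧ l % 9 = 1) {D : ℕ} (hD : InClass M D)
    (t : {l : ℕ // l ∈ M} → ZMod 3) : Cls (twist M D t) := by
  have hC : Cl M D := (cl_iff M D).2 hD
  exact Pool.Agent.R432.JG.tw_cls (t := t) hC.2.1 (Pool.Agent.R432.JG.pre_of hM hC)

end proof

/-- **Main theorem.**  For every finite set `M` of primes `≡ 1` modulo `9`:
(1) for every `D` in the class and every `t` the leading-term formula modulo `3` holds for `E_{D_t}`;
(2) the number of the `D ≤ X` in the class is at least `c' X / √(log X)`, and `c > 0.56`;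
(3) for every set `V` of exponents the proportion of the `D` in the class such that `V` is the set of
all `t` for which the `3`-part of the formula holds for `E_{D_t}` with both sides units at `3` tends to
`c ^ #V (1 - c) ^ (3 ^ #M - #V)`. -/
theorem result (M : Finset ℕ) (hM : ∀ l ∈ M, l.Prime ∧ l % 9 = 1) :
    (∀ D : ℕ, InClass M D → ∀ t, FormulaModThree (twist M D t)) ∧
    ClassIsLarge M ∧ (0.56 : ℝ) < c ∧ JointLaw M := by
  open Pool.Agent.R432.JG (Cl cl_iff twN) in
  have e1 : ∀ X : ℕ, (Finset.Icc 1 X).filter (fun D => InClass M D) =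
      (Finset.Icc 1 X).filter fun D => Pool.Agent.R432.JG.Cl M D := fun X =>
    Finset.filter_congr fun D _ => (Pool.Agent.R432.JG.cl_iff M D).symm
  refine ⟨fun D hD t => one (mem_cls hM hD t), ?_, Pool.Agent.R432.JG.c3_gt, fun V => ?_⟩
  · unfold ClassIsLarge
    simp only [e1]
    exact Pool.Agent.R432.JG.low hM
  · have h := Pool.Agent.R432.JG.law_pat hM Finset.univ V (Finset.subset_univ V)
    have hcard : (Finset.univ : Finset ({l : ℕ // l ∈ M} → ZMod 3)).card = 3 ^ M.card := by
      rw [Finset.card_univ, Fintype.card_fun, ZMod.card, Fintype.card_coe]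
    rw [hcard] at h
    refine h.congr fun X => ?_
    have c1 : Pool.Agent.R413.MQ.Bin.cnt (Pool.Agent.R432.JG.Cl M) (fun D => ∀ i ∈ Finset.univ,
        (Pool.Agent.Y703.CT.NoSplit (Pool.Agent.R432.JG.twN D M i) ↔ i ∈ V)) X =
        ((Finset.Icc 1 X).filter fun D => InClass M D ∧
          ∀ t, ThreePart (twist M D t) ↔ t ∈ V).card := by
      refine Pool.Agent.R413.MQ.Bin.cnt_card fun D => ?_
      rw [Finset.mem_filter, Pool.Agent.R432.JG.cl_iff]
      refine and_congr_right fun _ => and_congr_right fun hD => ?_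
      have h3 : ∀ t, ThreePart (twist M D t) ↔
          Pool.Agent.Y703.CT.NoSplit (Pool.Agent.R432.JG.twN D M t) := fun t =>
        three_iff (mem_cls hM hD t)
      constructor
      · intro h t _
        rw [← h3]
        exact h t
      · intro h t
        rw [h3]
        exact h t (Finset.mem_univ t)
    have c2 : Pool.Agent.R413.MQ.Bin.cnt (Pool.Agent.R432.JG.Cl M) (fun _ => True) X =
        ((Finset.Icc 1 X).filter fun D => InClass M D).card := by
      refine Pool.Agent.R413.MQ.Bin.cnt_card fun D => ?_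
      rw [Finset.mem_filter, and_iff_left trivial, Pool.Agent.R432.JG.cl_iff]
      exact Iff.rfl
    rw [c1, c2]

end Pool.Agent.Results.MP_92892c_nt.ThreePartTwistSystem
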