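import Pool.Agent.P8H17.X49.Law
import Pool.Agent.Results.MP_92892c_nt.FullClassTwoPartX49

/-!
# The `2`-part of the leading-term formula for the twists of `X_0(49)` with a fixed number of split and
# of inert prime factors from an arbitrary set of primes

`D ≥ 1` is squarefree with all prime factors `≡ 1 mod 4`, and `E_D` is the quadratic twist by `D` of
`X_0(49) : y² + x y = x³ - x² - 2 x - 1`.  We fix the number `k` of the prime factors of `D` which split
in `ℚ(√-7)`, the number `m ≥ 1` of those which are inert, and an arbitrary set `S` of primes which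
contains the prime factors of `D`.

For every `D` the quotient `z = (L(E_D, 1) / Ω) / (∏ c_p / #E_D(ℚ)_tors²)` is integral at the primes
above two, and it is a unit there if and only if `E_D(ℚ)` is finite and `Ш(E_D/ℚ)[2] = 0` (the formula
modulo two, a starting result: `MP_4a9ea6_nt/TwoPartTwistsX49`).

Theorem.  Suppose that at least a positive proportion of the primes up to `Y` are `1` modulo `4`, in
`S` and inert, and (if `k > 0`) at least a positive proportion of them are `1` modulo `4`, in `S` and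
split, for all large `Y`.  Then the number of the `D ≤ X` in the family has the order of magnitude
`X (log log X)^(k+m-1) / log X`, and the proportion of those for which the `2`-part of the formula holds
with both sides units at two (`L(E_D, 1) ≠ 0`, `E_D(ℚ)` finite, `Ш(E_D/ℚ)[2^∞] = 0`, and `z`, `1 / z`
integral at two) tends to the rational number `∏_{i < ⌈k/2⌉} (1 - 2^{-(2i+1)})`, that is `1`, `1/2`,
`1/2`, `7/16`, `7/16`, `217/512`, … for `k = 0, 1, 2, 3, 4, 5, …`: the proportion of the invertible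
matrices among the symmetric `k` times `k` matrices over the field with two elements.  It does not
depend on `m` and on `S`.  The condition holds if `S` is a residue class modulo a number prime to `14`.
-/

set_option autoImplicit false

open Finset Filter Topology

namespace Pool.Agent.Results.MP_92892c_nt.TwoPartFixedNumber

open Pool.Agent.Results.MP_4a9ea6_nt.TwoPartTwistsX49 (TwoPart)
open Pool.Agent.Results.MP_92892c_nt.FullClassTwoPartX49 (RankZeroShaTwo FormulaModTwo)

/-- the class: `D` is squarefree and all its prime factors are `≡ 1 mod 4` -/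
def InClass (D : ℕ) : Prop := Squarefree D ∧ ∀ p ∈ D.primeFactors, p % 4 = 1

/-- `p` splits in `ℚ(√-7)` -/
def Splits (p : ℕ) : Prop := p % 7 = 1 ∨ p % 7 = 2 ∨ p % 7 = 4

/-- `p` is inert in `ℚ(√-7)` -/
def Inert (p : ℕ) : Prop := p % 7 = 3 ∨ p % 7 = 5 ∨ p % 7 = 6

/-- the `D` of the class with all the prime factors in `S`, exactly `k` of which split in `ℚ(√-7)`,
and exactly `m` of which are inert in `ℚ(√-7)` -/
def Family (S : Set ℕ) (k m D : ℕ) : Prop :=
  InClass D ∧ (∀ p ∈ D.primeFactors, p ∈ S) ∧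
    Nat.card {p : ℕ // p.Prime ∧ p ∣ D ∧ Splits p} = k ∧
    Nat.card {p : ℕ // p.Prime ∧ p ∣ D ∧ Inert p} = m

/-- at least a positive proportion of the primes up to `Y` are in `S`, `1` modulo `4` and have the
property `T`, for all large `Y` -/
def Dense (S : Set ℕ) (T : ℕ → Prop) : Prop := ∃ (δ : ℝ) (Y₀ : ℕ), 0 < δ ∧ ∀ Y : ℕ, Y₀ ≤ Y →
  δ * (Y / Real.log Y) ≤ (Nat.card {p : ℕ // p ≤ Y ∧ p ∈ S ∧ p.Prime ∧ p % 4 = 1 ∧ T p} : ℝ)

/-- the condition on `S`: many inert primes, and, for `k > 0`, many split primes -/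
def Rich (S : Set ℕ) (k : ℕ) : Prop := (k = 0 ∨ Dense S Splits) ∧ Dense S Inert

/-- the number of the `D` with `1 ≤ D ≤ X` and `Q D` -/
noncomputable def count (Q : ℕ → Prop) (X : ℕ) : ℕ := Nat.card {D : ℕ // 1 ≤ D ∧ D ≤ X ∧ Q D}

/-- the number of the `D ≤ X` in the family is between two positive constants times
`X (log log X)^(k+m-1) / log X`, and the proportion of those for which the `2`-part of the formula holds
with both sides units at two tends to `∏_{i < ⌈k/2⌉} (1 - 2^{-(2i+1)})` -/
def Law (S : Set ℕ) (k m : ℕ) : Prop :=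
  (∃ (c C : ℝ) (X₀ : ℕ), 0 < c ∧ 0 < C ∧ ∀ X : ℕ, X₀ ≤ X →
    c * (X * Real.log (Real.log X) ^ (k + m - 1) / Real.log X) ≤ (count (Family S k m) X : ℝ) ∧
    (count (Family S k m) X : ℝ) ≤ C * (X * Real.log (Real.log X) ^ (k + m - 1) / Real.log X)) ∧
  Tendsto (fun X : ℕ => (count (fun D => Family S k m D ∧ TwoPart D) X : ℝ) /
    (count (Family S k m) X : ℝ)) atTop
    (𝓝 (∏ i ∈ range ((k + 1) / 2), (1 - (1 / 2 : ℝ) ^ (2 * i + 1))))

section proof

open Pool.Agent.R413.SQ (Gd Cl)
open Pool.Agent.P8H17.X49 (Fam)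

lemma mk_split (p : ℕ) : R413.SQ.mk p = 1 ↔ Splits p := by
  unfold R413.SQ.mk Splits
  split_ifs with h
  · exact ⟨fun _ => h, fun _ => rfl⟩
  · exact ⟨fun h0 => absurd h0 (by norm_num), fun h0 => absurd h0 h⟩

lemma mk_inert {p : ℕ} (hp : p.Prime) (h4 : p % 4 = 1) : R413.SQ.mk p = 0 ↔ Inert p := by
  have h7 : p % 7 ≠ 0 := by
    intro h0
    have h1 := (Nat.prime_dvd_prime_iff_eq (by norm_num) hp).1 (Nat.dvd_of_mod_eq_zero h0)
    omega
  unfold R413.SQ.mk Inert
  split_ifs with h
  · exact ⟨fun h0 => absurd h0 (by norm_num), fun h0 => by omega⟩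
  · exact ⟨fun _ => by omega, fun _ => rfl⟩

lemma card_pf {D : ℕ} (hD : D ≠ 0) (Q : ℕ → Prop) [DecidablePred Q] :
    Nat.card {p : ℕ // p.Prime ∧ p ∣ D ∧ Q p} = (D.primeFactors.filter Q).card := by
  rw [← Fintype.card_coe, ← Nat.card_eq_fintype_card]
  refine Nat.card_congr (Equiv.subtypeEquivRight fun p => ?_)
  rw [Finset.mem_filter, Nat.mem_primeFactors]
  tauto

lemma class_iff (D : ℕ) : InClass D ↔ Squarefree D ∧ Cl ∅ ∅ D.primeFactors :=
  Pool.Agent.R413.SQ.Cor.cl_iff D

lemma fam_iff (S : Set ℕ) (k m D : ℕ) : Family S k m D ↔ Fam (fun p => p ∈ S) k m D := by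
  classical
  unfold Family Fam
  rw [class_iff, and_assoc]
  refine and_congr_right fun h1 => and_congr_right fun h2 => and_congr_right fun _ => ?_
  have h3 : (D.primeFactors.filter fun p => R413.SQ.mk p = 1) = D.primeFactors.filter Splits :=
    Finset.filter_congr fun p _ => mk_split p
  have h4 : (D.primeFactors.filter fun p => R413.SQ.mk p = 0) = D.primeFactors.filter Inert :=
    Finset.filter_congr fun p hp => mk_inert (Nat.prime_of_mem_primeFactors hp)
      (Pool.Agent.R413.SQ.pr1 (h2 p hp)).2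
  rw [card_pf h1.ne_zero, card_pf h1.ne_zero]
  have h5 : (D.primeFactors.filter fun p => R413.SQ.mk p = 1).card = (D.primeFactors.filter Splits).card := by
    rw [h3]
  have h6 : (D.primeFactors.filter fun p => R413.SQ.mk p = 0).card = (D.primeFactors.filter Inert).card := by
    rw [h4]
  rw [← h5, ← h6]

open Pool.Agent.V11291.FK (Dn) in
lemma dense_iff (S : Set ℕ) (T : ℕ → Prop) :
    Dense S T ↔ Dn fun p => p ∈ S ∧ p.Prime ∧ p % 4 = 1 ∧ T p := by
  classical
  unfold Dense Dn
  have h : ∀ Y : ℕ, Nat.card {p : ℕ // p ≤ Y ∧ p ∈ S ∧ p.Prime ∧ p % 4 = 1 ∧ T p} =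
      ((range (Y + 1)).filter fun p => p ∈ S ∧ p.Prime ∧ p % 4 = 1 ∧ T p).card := by
    intro Y
    rw [← Fintype.card_coe, ← Nat.card_eq_fintype_card]
    refine Nat.card_congr (Equiv.subtypeEquivRight fun p => ?_)
    rw [Finset.mem_filter, Finset.mem_range, Nat.lt_succ_iff]
  simp only [h]
  refine exists_congr fun δ => exists_congr fun Y₀ => and_congr_right fun _ =>
    forall_congr' fun Y => imp_congr_right fun _ => ?_
  rw [iff_iff_eq]
  congr!

lemma rich_iff (S : Set ℕ) (k : ℕ) : Rich S k ↔ Pool.Agent.P8H17.X49.Rich (fun p => p ∈ S) k := by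
  unfold Rich Pool.Agent.P8H17.X49.Rich
  rw [dense_iff, dense_iff]
  have h1 : (fun p => p ∈ S ∧ p.Prime ∧ p % 4 = 1 ∧ Splits p) =
      fun p => p ∈ S ∧ p.Prime ∧ p % 4 = 1 ∧ R413.SQ.mk p = 1 := by
    funext p
    rw [mk_split]
  have h2 : (fun p => p ∈ S ∧ p.Prime ∧ p % 4 = 1 ∧ Inert p) =
      fun p => p ∈ S ∧ p.Prime ∧ p % 4 = 1 ∧ R413.SQ.mk p = 0 := by
    funext p
    rw [eq_iff_iff]
    exact and_congr_right fun _ => and_congr_right fun hp => and_congr_right fun h4 =>
      (mk_inert hp h4).symm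
  rw [h1, h2]

lemma count_eq (Q : ℕ → Prop) [DecidablePred Q] (X : ℕ) : count Q X = ((Icc 1 X).filter Q).card := by
  unfold count
  rw [← Fintype.card_coe, ← Nat.card_eq_fintype_card]
  refine Nat.card_congr (Equiv.subtypeEquivRight fun p => ?_)
  rw [Finset.mem_filter, Finset.mem_Icc, and_assoc]

end proof

/-- **Main theorem.**
(1) Let `S` be a set of primes which satisfies the condition `Rich`, and `m ≥ 1`.  Then the number of
the `D` up to `X` of the class with all the prime factors in `S`, exactly `k` of them split and exactly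
`m` of them inert in `ℚ(√-7)`, is between two positive constants times
`X (log log X)^(k+m-1) / log X`, and the proportion of those for which the `2`-part of the formula holds
with both sides units at two tends to `∏_{i < ⌈k/2⌉} (1 - 2^{-(2i+1)})`.
(2) The condition holds if `S` is the set of the numbers in a residue class `c` modulo `q`, with `q`
prime to `28` and `c` prime to `q`.
(3) For every `D` of the class the formula modulo two holds, and the `2`-part of the formula holds with
both sides units at two if and only if `E_D(ℚ)` is finite and `Ш(E_D/ℚ)[2] = 0`. -/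
theorem result :
    (∀ (S : Set ℕ) (k m : ℕ), 1 ≤ m → Rich S k → Law S k m) ∧
    (∀ q c : ℕ, Nat.Coprime q 28 → Nat.Coprime c q → ∀ k : ℕ, Rich {p | p % q = c % q} k) ∧
    ∀ D : ℕ, InClass D → FormulaModTwo D ∧ (TwoPart D ↔ RankZeroShaTwo D) := by
  classical
  refine ⟨fun S k m hm hS => ?_, fun q c hq hc k =>
    (rich_iff _ k).2 (Pool.Agent.P8H17.X49.rich_class hq hc k), fun D hD =>
    ⟨Pool.Agent.Results.MP_92892c_nt.FullClassTwoPartX49.modTwo hD,
      Pool.Agent.Results.MP_92892c_nt.FullClassTwoPartX49.two_sel hD⟩⟩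
  have hS' := (rich_iff S k).1 hS
  have e1 : ∀ X : ℕ, count (Family S k m) X =
      ((Icc 1 X).filter fun N => Pool.Agent.P8H17.X49.Fam (fun p => p ∈ S) k m N).card := by
    intro X
    rw [count_eq]
    congr 1
    ext N
    rw [mem_filter, mem_filter, fam_iff]
  have e2 : ∀ X : ℕ, count (fun N => Family S k m N ∧ TwoPart N) X =
      ((Icc 1 X).filter fun N => Pool.Agent.P8H17.X49.Fam (fun p => p ∈ S) k m N ∧
        Pool.Agent.R413.SQ.Gd Pool.Agent.Y698.SG.n4 N.primeFactors).card := by
    intro X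
    rw [count_eq]
    congr 1
    ext N
    rw [mem_filter, mem_filter]
    refine and_congr_right fun _ => ?_
    rw [fam_iff]
    exact and_congr_right fun h =>
      Pool.Agent.Results.MP_92892c_nt.FullClassTwoPartX49.two_gd ((class_iff N).2 ⟨h.1, h.2.1⟩)
  refine ⟨?_, ?_⟩
  · obtain ⟨c, C, X₀, hc, hC, h⟩ := Pool.Agent.P8H17.X49.N_size hm hS'
    refine ⟨c, C, X₀, hc, hC, fun X hX => ?_⟩
    have h3 := h X hX
    rw [e1]
    refine ⟨h3.1.trans (le_of_eq ?_), (le_of_eq ?_).trans h3.2⟩
    · congr 2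
    · congr 2
  · have hl := Pool.Agent.P8H17.X49.N_law Pool.Agent.Y698.SG.n4 hm hS'
    refine hl.congr fun X => ?_
    rw [e1, e2]

end Pool.Agent.Results.MP_92892c_nt.TwoPartFixedNumber
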